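import Pool.Agent.H503R3.QCI.Family

/-!
# Complete intersections that do not embed into quadratic complete intersections
-/

set_option autoImplicit false

namespace Pool.Agent.Results.MP_ee4e20_al.NoQuadraticEmbedding

open MvPolynomial

universe u

/-- `F[x_1,…,x_n]/(f_1,…,f_n)` is a standard graded Artinian complete intersection: the `f_i`
are homogeneous and form a regular sequence. -/
structure IsGradedCI {F : Type u} [Field F] {n : ℕ} (f : Fin n → MvPolynomial (Fin n) F) :
    Prop where
  homogeneous : ∀ i, ∃ e : ℕ, (f i).IsHomogeneous e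
  regular : RingTheory.Sequence.IsRegular (MvPolynomial (Fin n) F) (List.ofFn f)

/-- The algebra `F[x_1,…,x_n]/(f_1,…,f_n)`. -/
abbrev Alg {F : Type u} [Field F] {n : ℕ} (f : Fin n → MvPolynomial (Fin n) F) : Type u :=
  MvPolynomial (Fin n) F ⧸ Ideal.span (Set.range f)

/-- The socle degree of `F[x_1,…,x_n]/(f_1,…,f_n)` is `d`: this is the largest degree of a
homogeneous polynomial not in the ideal. -/
def HasSocleDegree {F : Type u} [Field F] {n : ℕ} (f : Fin n → MvPolynomial (Fin n) F)
    (d : ℕ) : Prop :=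
  (∃ h : MvPolynomial (Fin n) F, h.IsHomogeneous d ∧ h ∉ Ideal.span (Set.range f)) ∧
    ∀ j, d < j → ∀ h : MvPolynomial (Fin n) F, h.IsHomogeneous j → h ∈ Ideal.span (Set.range f)

open H503R3.QCI

lemma finite_of_socle {F : Type u} [Field F] {n : ℕ} {f : Fin n → MvPolynomial (Fin n) F}
    {d : ℕ} (h : HasSocleDegree f d) : Module.Finite F (Alg f) := by
  let W : Submodule F (MvPolynomial (Fin n) F) :=
    ⨆ j : Fin (d + 1), homogeneousSubmodule (Fin n) F j.1
  have hW : Module.Finite F W := by
    have : ∀ j : Fin (d + 1), Module.Finite F (homogeneousSubmodule (Fin n) F j.1) :=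
      fun j => inferInstance
    exact Submodule.finite_iSup _
  let T : W →ₗ[F] Alg f := (Ideal.Quotient.mkₐ F (Ideal.span (Set.range f))).toLinearMap ∘ₗ
    W.subtype
  refine Module.Finite.of_surjective T ?_
  intro y
  obtain ⟨x, rfl⟩ := Ideal.Quotient.mk_surjective y
  refine ⟨⟨∑ j : Fin (d + 1), homogeneousComponent j.1 x, ?_⟩, ?_⟩
  · refine sum_mem fun j _ => ?_
    exact Submodule.mem_iSup_of_mem j (homogeneousComponent_isHomogeneous _ _)
  · change Ideal.Quotient.mk (Ideal.span (Set.range f))
      (∑ j : Fin (d + 1), homogeneousComponent j.1 x) = _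
    rw [Ideal.Quotient.eq]
    have h1 : x = ∑ j ∈ Finset.range (x.totalDegree + 1 + (d + 1)), homogeneousComponent j x := by
      conv_lhs => rw [← sum_homogeneousComponent x]
      refine Finset.sum_subset ?_ ?_
      · intro i hi
        rw [Finset.mem_range] at hi ⊢
        omega
      · intro i _ hi
        exact homogeneousComponent_eq_zero i x (by simpa using hi)
    have h2 : ∑ j ∈ Finset.range (x.totalDegree + 1 + (d + 1)), homogeneousComponent j x =
        ∑ j ∈ Finset.range (d + 1), homogeneousComponent j x +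
        ∑ j ∈ Finset.range (x.totalDegree + 1), homogeneousComponent (d + 1 + j) x := by
      rw [add_comm (x.totalDegree + 1) (d + 1), Finset.sum_range_add]
    have h2' := Finset.sum_range (n := d + 1) (fun j => homogeneousComponent j x)
    have h3 : ∑ j : Fin (d + 1), homogeneousComponent j.1 x - x =
        - ∑ j ∈ Finset.range (x.totalDegree + 1), homogeneousComponent (d + 1 + j) x := by
      have h4 := h1.trans h2
      rw [h2'] at h4
      linear_combination -h4
    rw [h3]
    refine neg_mem (sum_mem fun j _ => ?_)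
    exact h.2 (d + 1 + j) (by omega) _ (homogeneousComponent_isHomogeneous _ _)

lemma isGradedCI_fam {F : Type u} [Field F] {a b : ℕ} (g : Fin b → Tri3 a → F) :
    IsGradedCI (fam g) := by
  refine ⟨fun i => ⟨_, fam_homog g i⟩, isWeaklyRegular_of_reg (fam_reg g), ?_⟩
  intro htop
  rw [smul_eq_mul, Ideal.mul_top] at htop
  apply fam_socle_notMem g
  have h1 : Ideal.ofList (List.ofFn (fam g)) = Ideal.span (Set.range (fam g)) := by
    rw [Ideal.ofList]
    congr 1
    ext x
    simp [List.mem_ofFn]
  rw [← h1, ← htop]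
  exact Submodule.mem_top

lemma numeric (k j : ℕ) (hk : 32 ≤ k) (hj : j < 5) :
    (5 * k + j) ^ 3 + (3 * k + j + k) * (5 * k + j) < k * (3 * k + j).choose 3 := by
  have h1 : (3 * k).choose 3 ≤ (3 * k + j).choose 3 := Nat.choose_le_choose 3 (by omega)
  have h2 : 6 * (3 * k).choose 3 = 3 * k * (3 * k - 1) * (3 * k - 2) := by
    have := Nat.descFactorial_eq_factorial_mul_choose (3 * k) 3
    simp only [Nat.descFactorial, Nat.factorial] at this
    rw [show 3 * k - 0 = 3 * k by omega] at this
    linarith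
  obtain ⟨m, rfl⟩ := Nat.exists_eq_add_of_le hk
  have h3 : 3 * (32 + m) - 1 = 95 + 3 * m := by omega
  have h4 : 3 * (32 + m) - 2 = 94 + 3 * m := by omega
  rw [h3, h4] at h2
  have h5 : (5 * (32 + m) + j) ^ 3 + (3 * (32 + m) + j + (32 + m)) * (5 * (32 + m) + j) ≤
      (5 * (32 + m) + 4) ^ 3 + (3 * (32 + m) + 4 + (32 + m)) * (5 * (32 + m) + 4) := by
    gcongr <;> omega
  have h6 : 6 * ((5 * (32 + m) + 4) ^ 3 + (3 * (32 + m) + 4 + (32 + m)) * (5 * (32 + m) + 4)) <
      (32 + m) * (3 * (32 + m) * (95 + 3 * m) * (94 + 3 * m)) := by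
    ring_nf
    nlinarith [sq_nonneg m, pow_nonneg (Nat.zero_le m) 3, pow_nonneg (Nat.zero_le m) 4]
  rw [← h2] at h6
  have h7 : (32 + m) * (3 * (32 + m)).choose 3 ≤ (32 + m) * (3 * (32 + m) + j).choose 3 :=
    Nat.mul_le_mul_left _ h1
  have h8 : (32 + m) * (6 * (3 * (32 + m)).choose 3) = 6 * ((32 + m) * (3 * (32 + m)).choose 3) := by
    ring
  rw [h8] at h6
  omega

/-- Over every field `F` and for every `d ≥ 160` there is a standard graded Artinian complete
intersection of socle degree `d`, cut out by quadrics and cubics, which admits no injective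
algebra map into a complete intersection of socle degree `d` cut out by quadrics. -/
theorem result (F : Type u) [Field F] (d : ℕ) (hd : 160 ≤ d) :
    ∃ (n : ℕ) (f : Fin n → MvPolynomial (Fin n) F),
      IsGradedCI f ∧ (∀ i, (f i).IsHomogeneous 2 ∨ (f i).IsHomogeneous 3) ∧
      Module.Finite F (Alg f) ∧ HasSocleDegree f d ∧
      ∀ (N : ℕ) (q : Fin N → MvPolynomial (Fin N) F), IsGradedCI q →
        (∀ i, (q i).IsHomogeneous 2) → HasSocleDegree q d →
        ∀ φ : Alg f →ₐ[F] Alg q, ¬ Function.Injective φ := by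
  obtain ⟨k, j, hj, rfl⟩ : ∃ k j, j < 5 ∧ d = 5 * k + j :=
    ⟨d / 5, d % 5, Nat.mod_lt _ (by norm_num), (Nat.div_add_mod d 5).symm⟩
  have hk : 32 ≤ k := by omega
  have hnum := numeric k j hk hj
  have hN : (3 * k + j) + 2 * k = 5 * k + j := by ring
  obtain ⟨g, hg⟩ := main (F := F) (3 * k + j) k (by rw [hN]; exact hnum)
  have hsoc : HasSocleDegree (fam g) (5 * k + j) := by
    rw [← hN]
    exact fam_socle g
  refine ⟨3 * k + j + k, fam g, isGradedCI_fam g, ?_, finite_of_socle hsoc, hsoc, ?_⟩
  · intro i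
    have h1 := fam_homog g i
    refine Fin.addCases (fun i => ?_) (fun i => ?_) i
    · left
      have h1 := fam_homog g (Fin.castAdd k i)
      simpa [fdeg] using h1
    · right
      have h1 := fam_homog g (Fin.natAdd (3 * k + j) i)
      simpa [fdeg] using h1
  · intro N q hq hq2 hqd φ
    have hreg := reg_of_isWeaklyRegular hq.regular.toIsWeaklyRegular
    have hs : IsSocleDegree (Ideal.span (Set.range q)) (∑ _i : Fin N, (2 - 1)) :=
      isSocleDegree_ci q (fun _ => 2) hq2 (fun _ => by norm_num) hreg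
    have hNd : ∑ _i : Fin N, (2 - 1) = 5 * k + j := hs.unique hqd
    have hNd' : N = 3 * k + j + 2 * k := by
      rw [hN, ← hNd]; simp
    subst hNd'
    refine hg q hq2 hreg ?_ φ
    have h9 : ∀ t, t = 5 * k + j → IsSocleDegree (Ideal.span (Set.range q)) t := by
      rintro t rfl
      exact hqd
    exact h9 _ hN

end Pool.Agent.Results.MP_ee4e20_al.NoQuadraticEmbedding
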